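import Mathlib
import Pool.Agent.Helper40.Lin.Defs

open MeasureTheory Filter Topology
open scoped CompactlySupported

namespace Pool.Agent.Helper78.Lin

/-- the averages -/
noncomputable def av {X : Type*} (T : X → X) (N : ℕ) (p : X →₀ ℝ) (f : X → ℝ) : ℝ :=
  (N : ℝ)⁻¹ * ∑ n ∈ Finset.range N, (p.sum fun x a => a * f (T^[n] x))

theorem av_add {X : Type*} (T : X → X) (N : ℕ) (p : X →₀ ℝ) (f g : X → ℝ) :
    av T N p (fun x => f x + g x) = av T N p f + av T N p g := by
  unfold av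
  rw [← mul_add, ← Finset.sum_add_distrib]
  congr 1
  refine Finset.sum_congr rfl fun n _ => ?_
  unfold Finsupp.sum
  rw [← Finset.sum_add_distrib]
  refine Finset.sum_congr rfl fun x _ => ?_
  ring

theorem av_smul {X : Type*} (T : X → X) (N : ℕ) (p : X →₀ ℝ) (c : ℝ) (f : X → ℝ) :
    av T N p (fun x => c * f x) = c * av T N p f := by
  have h : ∀ n, (p.sum fun x a => a * (c * f (T^[n] x))) =
      c * (p.sum fun x a => a * f (T^[n] x)) := by
    intro n
    unfold Finsupp.sum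
    rw [Finset.mul_sum]
    refine Finset.sum_congr rfl fun x _ => ?_
    ring
  unfold av
  simp only [h]
  rw [← Finset.mul_sum]
  ring

theorem av_mono {X : Type*} (T : X → X) (N : ℕ) (p : X →₀ ℝ) (hp : ∀ x, 0 ≤ p x)
    (f g : X → ℝ) (h : ∀ x, f x ≤ g x) : av T N p f ≤ av T N p g := by
  unfold av
  refine mul_le_mul_of_nonneg_left ?_ (by positivity)
  refine Finset.sum_le_sum fun n _ => ?_
  refine Finset.sum_le_sum fun x _ => ?_
  exact mul_le_mul_of_nonneg_left (h _) (hp x)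

theorem sum_bd {X : Type*} (p : X →₀ ℝ) (hp : ∀ x, 0 ≤ p x) (hp1 : (p.sum fun _ a => a) ≤ 1)
    (f : X → ℝ) (B : ℝ) (hB : 0 ≤ B) (hf : ∀ x, |f x| ≤ B) :
    |p.sum fun x a => a * f x| ≤ B := by
  calc |p.sum fun x a => a * f x| ≤ p.sum fun x a => |a * f x| := Finset.abs_sum_le_sum_abs _ _
    _ ≤ p.sum fun x a => a * B := by
        refine Finset.sum_le_sum fun x _ => ?_
        change |p x * f x| ≤ p x * B
        rw [abs_mul, abs_of_nonneg (hp x)]
        exact mul_le_mul_of_nonneg_left (hf x) (hp x)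
    _ = (p.sum fun _ a => a) * B := by rw [Finsupp.sum_mul]
    _ ≤ 1 * B := mul_le_mul_of_nonneg_right hp1 hB
    _ = B := one_mul B

theorem av_bd {X : Type*} (T : X → X) (N : ℕ) (p : X →₀ ℝ) (hp : ∀ x, 0 ≤ p x)
    (hp1 : (p.sum fun _ a => a) ≤ 1) (f : X → ℝ) (B : ℝ) (hB : 0 ≤ B) (hf : ∀ x, |f x| ≤ B) :
    |av T N p f| ≤ B := by
  unfold av
  rcases Nat.eq_zero_or_pos N with h0 | h0
  · subst h0
    simpa using hB
  have hN : (0 : ℝ) < N := by exact_mod_cast h0
  rw [abs_mul, abs_of_nonneg (by positivity : (0 : ℝ) ≤ (N : ℝ)⁻¹), inv_mul_le_iff₀ hN]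
  calc |∑ n ∈ Finset.range N, (p.sum fun x a => a * f (T^[n] x))| ≤
        ∑ n ∈ Finset.range N, |p.sum fun x a => a * f (T^[n] x)| := Finset.abs_sum_le_sum_abs _ _
    _ ≤ ∑ n ∈ Finset.range N, B :=
        Finset.sum_le_sum fun n _ => sum_bd p hp hp1 (fun x => f (T^[n] x)) B hB fun x => hf _
    _ = N * B := by rw [Finset.sum_const, Finset.card_range, nsmul_eq_mul]

theorem av_comp {X : Type*} (T : X → X) (N : ℕ) (p : X →₀ ℝ) (hp : ∀ x, 0 ≤ p x)
    (hp1 : (p.sum fun _ a => a) ≤ 1) (f : X → ℝ) (B : ℝ) (hB : 0 ≤ B) (hf : ∀ x, |f x| ≤ B) :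
    |av T N p (fun x => f (T x)) - av T N p f| ≤ 2 * B * (N : ℝ)⁻¹ := by
  have h1 : av T N p (fun x => f (T x)) - av T N p f =
      (N : ℝ)⁻¹ * ((p.sum fun x a => a * f (T^[N] x)) - (p.sum fun x a => a * f x)) := by
    unfold av
    rw [← mul_sub, ← Finset.sum_sub_distrib]
    congr 1
    have h2 := Finset.sum_range_sub (fun n => p.sum fun x a => a * f (T^[n] x)) N
    simp only [Function.iterate_zero, id_eq] at h2
    rw [← h2]
    refine Finset.sum_congr rfl fun n _ => ?_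
    congr 1
    refine Finsupp.sum_congr fun x _ => ?_
    rw [Function.iterate_succ_apply']
  rw [h1, abs_mul, abs_of_nonneg (by positivity : (0 : ℝ) ≤ (N : ℝ)⁻¹), mul_comm]
  refine mul_le_mul_of_nonneg_right ?_ (by positivity)
  have h3 := sum_bd p hp hp1 (fun x => f (T^[N] x)) B hB fun x => hf _
  have h4 := sum_bd p hp hp1 f B hB hf
  calc _ ≤ |p.sum fun x a => a * f (T^[N] x)| + |p.sum fun x a => a * f x| := abs_sub _ _
    _ ≤ _ := by linarith

/-- weak limits of the averages -/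
theorem exists_lim {X : Type*} [TopologicalSpace X] [CompactSpace X] [T2Space X]
    [MeasurableSpace X] [BorelSpace X] (T : X ≃ₜ X) (U : Ultrafilter ℕ)
    (hU : (U : Filter ℕ) ≤ atTop) (N : ℕ → ℕ) (hN : ∀ j, j ≤ N j) (p : ℕ → X →₀ ℝ)
    (hp : ∀ j x, 0 ≤ p j x) (hp1 : ∀ j, ((p j).sum fun _ a => a) ≤ 1) :
    ∃ μ : Measure X, IsFiniteMeasure μ ∧ μ.Regular ∧ Measure.map T μ = μ ∧
      ∀ f : C(X, ℝ), Tendsto (fun j => av T (N j) (p j) f) U (𝓝 (∫ x, f x ∂μ)) := by
  have hbd : ∀ (f : C(X, ℝ)) x, |f x| ≤ ‖f‖ := fun f x => f.norm_coe_le_norm x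
  have hlim : ∀ f : C(X, ℝ), ∃ l : ℝ, Tendsto (fun j => av T (N j) (p j) f) U (𝓝 l) := by
    intro f
    have h1 : ((U.map fun j => av T (N j) (p j) f : Ultrafilter ℝ) : Filter ℝ) ≤
        𝓟 (Set.Icc (-‖f‖) ‖f‖) := by
      rw [le_principal_iff, Ultrafilter.mem_coe, Ultrafilter.mem_map]
      refine Filter.univ_mem' fun j => ?_
      exact abs_le.1 (av_bd T (N j) (p j) (hp j) (hp1 j) f ‖f‖ (norm_nonneg _) (hbd f))
    obtain ⟨l, _, hl⟩ := isCompact_Icc.ultrafilter_le_nhds _ h1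
    exact ⟨l, hl⟩
  choose L hL using hlim
  let Λ : C_c(X, ℝ) →ₚ[ℝ] ℝ :=
  { toFun := fun g => L g.toContinuousMap
    map_add' := fun g g' => by
      refine tendsto_nhds_unique (hL _) ?_
      have h1 := (hL g.toContinuousMap).add (hL g'.toContinuousMap)
      refine h1.congr fun j => ?_
      rw [← av_add]
      rfl
    map_smul' := fun c g => by
      refine tendsto_nhds_unique (hL _) ?_
      have h1 := (hL g.toContinuousMap).const_mul c
      refine h1.congr fun j => ?_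
      rw [← av_smul]
      rfl
    monotone' := fun g g' h => by
      refine le_of_tendsto_of_tendsto' (hL _) (hL _) fun j => ?_
      exact av_mono T (N j) (p j) (hp j) _ _ fun x => h x }
  have hint : ∀ f : C(X, ℝ), ∫ x, f x ∂(RealRMK.rieszMeasure Λ) = L f := by
    intro f
    exact RealRMK.integral_rieszMeasure Λ ⟨f, HasCompactSupport.of_compactSpace _⟩
  have hcomp : ∀ f : C(X, ℝ), L (f.comp ⟨T, T.continuous⟩) = L f := by
    intro f
    refine tendsto_nhds_unique (hL _) ?_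
    have h1 : Tendsto (fun j => av T (N j) (p j) (f.comp ⟨T, T.continuous⟩) -
        av T (N j) (p j) f) U (𝓝 0) := by
      have h2 : Tendsto (fun j : ℕ => 2 * ‖f‖ * ((N j : ℕ) : ℝ)⁻¹) U (𝓝 0) := by
        have h3 : Tendsto (fun j => ((N j : ℕ) : ℝ)) atTop atTop :=
          tendsto_natCast_atTop_atTop.comp (tendsto_atTop_mono hN tendsto_id)
        have h4 := (tendsto_inv_atTop_zero.comp h3).const_mul (2 * ‖f‖)
        rw [mul_zero] at h4
        exact h4.mono_left hU
      refine squeeze_zero_norm (fun j => ?_) h2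
      exact av_comp T (N j) (p j) (hp j) (hp1 j) f ‖f‖ (norm_nonneg _) (hbd f)
    have h5 := h1.add (hL f)
    rw [zero_add] at h5
    refine h5.congr fun j => ?_
    ring
  refine ⟨RealRMK.rieszMeasure Λ, inferInstance, inferInstance, ?_, fun f => ?_⟩
  · have hreg : (Measure.map T (RealRMK.rieszMeasure Λ)).Regular := Measure.Regular.map T
    refine Measure.ext_of_integral_eq_on_compactlySupported fun f => ?_
    have hm : ∫ x, f x ∂(Measure.map T (RealRMK.rieszMeasure Λ)) =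
        ∫ x, f (T x) ∂(RealRMK.rieszMeasure Λ) :=
      integral_map T.continuous.measurable.aemeasurable
        (map_continuous f).measurable.aestronglyMeasurable
    rw [hm]
    have h1 := hint (f.toContinuousMap.comp ⟨T, T.continuous⟩)
    have h2 := hint f.toContinuousMap
    rw [hcomp] at h1
    rw [← h1] at h2
    exact h2.symm
  · rw [hint]
    exact hL f

/-- the compactness argument -/
theorem MEAS {X : Type*} [TopologicalSpace X] [CompactSpace X] [T2Space X] [MeasurableSpace X]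
    [BorelSpace X] (t s : X ≃ₜ X)
    (hsing : ∀ ν ρ : Measure X, IsFiniteMeasure ν → IsFiniteMeasure ρ → Measure.map t ν = ν →
      Measure.map s ρ = ρ → ν ⟂ₘ ρ) (δ : ℝ) (hδ : 0 < δ) :
    ∃ N₀ : ℕ, ∀ N ≥ N₀, ∀ p p' : X →₀ ℝ, (∀ x, 0 ≤ p x) → (∀ x, 0 ≤ p' x) →
      (p.sum fun _ a => a) ≤ 1 → (p'.sum fun _ a => a) ≤ 1 →
      ∃ f : X → ℝ, (∀ x, 0 ≤ f x ∧ f x ≤ 1) ∧
        ∑ n ∈ Finset.range N, (p.sum fun x a => a * f (s^[n] x)) ≤ δ * N ∧
        ∑ n ∈ Finset.range N, (p'.sum fun x a => a * (1 - f (t.symm^[n] x))) ≤ δ * N := by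
  by_contra hcon
  push Not at hcon
  choose N hN p p' hp hp' hp1 hp1' hno using hcon
  obtain ⟨ρ, hρf, hρr, hρm, hρl⟩ := exists_lim s (hyperfilter ℕ)
    (by rw [← Nat.cofinite_eq_atTop]; exact hyperfilter_le_cofinite) N hN p hp hp1
  obtain ⟨ν, hνf, hνr, hνm, hνl⟩ := exists_lim t.symm (hyperfilter ℕ)
    (by rw [← Nat.cofinite_eq_atTop]; exact hyperfilter_le_cofinite) N hN p' hp' hp1'
  have hνm' : Measure.map t ν = ν := by
    conv_lhs => rw [← hνm]
    rw [Measure.map_map t.continuous.measurable t.symm.continuous.measurable]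
    have : (t : X → X) ∘ t.symm = id := by
      funext x
      simp
    rw [this, Measure.map_id]
  obtain ⟨E, hE, hE1, hE2⟩ := hsing ν ρ hνf hρf hνm' hρm
  have hδ4 : ENNReal.ofReal (δ / 4) ≠ 0 := by
    rw [Ne, ENNReal.ofReal_eq_zero, not_le]
    positivity
  obtain ⟨K1, hK1, hK1c, hK1m⟩ := hE.exists_isCompact_sdiff_lt (measure_ne_top ρ E) hδ4
  obtain ⟨K2, hK2, hK2c, hK2m⟩ := hE.compl.exists_isCompact_sdiff_lt (measure_ne_top ν Eᶜ) hδ4
  have hdisj : Disjoint K1 K2 := by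
    rw [Set.disjoint_left]
    intro x h1 h2
    exact hK2 h2 (hK1 h1)
  obtain ⟨f, hf0, hf1, hf01⟩ := exists_continuous_zero_one_of_isClosed hK1c.isClosed hK2c.isClosed
    hdisj
  have hint1 : ∫ x, f x ∂ρ < δ := by
    have h1 : ρ K1ᶜ ≤ ENNReal.ofReal (δ / 4) := by
      have h2 : K1ᶜ ⊆ Eᶜ ∪ (E \ K1) := by
        intro x hx
        by_cases hxE : x ∈ E
        · exact Or.inr ⟨hxE, hx⟩
        · exact Or.inl hxE
      calc ρ K1ᶜ ≤ ρ (Eᶜ ∪ (E \ K1)) := measure_mono h2
        _ ≤ ρ Eᶜ + ρ (E \ K1) := measure_union_le _ _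
        _ ≤ _ := by rw [hE2, zero_add]; exact hK1m.le
    have h3 : ∫ x, f x ∂ρ ≤ ∫ x, K1ᶜ.indicator (fun _ => (1 : ℝ)) x ∂ρ := by
      refine integral_mono (f.continuous.integrable_of_hasCompactSupport
        (HasCompactSupport.of_compactSpace _))
        ((integrable_const _).indicator hK1c.measurableSet.compl) fun x => ?_
      by_cases hx : x ∈ K1
      · rw [Set.indicator_of_notMem (by simpa using hx), hf0 hx]
        exact le_refl _
      · rw [Set.indicator_of_mem (by simpa using hx)]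
        exact (hf01 x).2
    have h4 : ∫ x, K1ᶜ.indicator (fun _ => (1 : ℝ)) x ∂ρ = (ρ K1ᶜ).toReal := by
      rw [integral_indicator hK1c.measurableSet.compl]
      simp [Measure.real]
    have h5 : (ρ K1ᶜ).toReal ≤ δ / 4 := ENNReal.toReal_le_of_le_ofReal (by positivity) h1
    linarith
  have hint2 : ∫ x, (1 - f) x ∂ν < δ := by
    have h1 : ν K2ᶜ ≤ ENNReal.ofReal (δ / 4) := by
      have h2 : K2ᶜ ⊆ E ∪ (Eᶜ \ K2) := by
        intro x hx
        by_cases hxE : x ∈ E
        · exact Or.inl hxE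
        · exact Or.inr ⟨hxE, hx⟩
      calc ν K2ᶜ ≤ ν (E ∪ (Eᶜ \ K2)) := measure_mono h2
        _ ≤ ν E + ν (Eᶜ \ K2) := measure_union_le _ _
        _ ≤ _ := by rw [hE1, zero_add]; exact hK2m.le
    have h3 : ∫ x, (1 - f) x ∂ν ≤ ∫ x, K2ᶜ.indicator (fun _ => (1 : ℝ)) x ∂ν := by
      refine integral_mono ((1 - f).continuous.integrable_of_hasCompactSupport
        (HasCompactSupport.of_compactSpace _))
        ((integrable_const _).indicator hK2c.measurableSet.compl) fun x => ?_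
      by_cases hx : x ∈ K2
      · rw [Set.indicator_of_notMem (by simpa using hx)]
        simp [hf1 hx]
      · rw [Set.indicator_of_mem (by simpa using hx)]
        simpa using (hf01 x).1
    have h4 : ∫ x, K2ᶜ.indicator (fun _ => (1 : ℝ)) x ∂ν = (ν K2ᶜ).toReal := by
      rw [integral_indicator hK2c.measurableSet.compl]
      simp [Measure.real]
    have h5 : (ν K2ᶜ).toReal ≤ δ / 4 := ENNReal.toReal_le_of_le_ofReal (by positivity) h1
    linarith
  have he1 := (hρl f).eventually (gt_mem_nhds hint1)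
  have he2 := (hνl (1 - f)).eventually (gt_mem_nhds hint2)
  have he3 : ∀ᶠ j in (hyperfilter ℕ : Filter ℕ), 1 ≤ j := by
    have h1 : (hyperfilter ℕ : Filter ℕ) ≤ atTop := by
      rw [← Nat.cofinite_eq_atTop]; exact hyperfilter_le_cofinite
    exact h1 (eventually_ge_atTop 1)
  obtain ⟨j, ⟨hj1, hj2⟩, hj3⟩ := ((he1.and he2).and he3).exists
  have hNj : (0 : ℝ) < N j := by
    have := hN j
    have : 1 ≤ N j := le_trans hj3 this
    exact_mod_cast this
  have hs1 : ∑ n ∈ Finset.range (N j), ((p j).sum fun x a => a * f (s^[n] x)) ≤ δ * N j := by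
    unfold av at hj1
    rw [inv_mul_lt_iff₀ hNj] at hj1
    linarith
  have hs2 : ∑ n ∈ Finset.range (N j), ((p' j).sum fun x a => a * (1 - f (t.symm^[n] x))) ≤
      δ * N j := by
    unfold av at hj2
    rw [inv_mul_lt_iff₀ hNj] at hj2
    have : ∑ n ∈ Finset.range (N j), ((p' j).sum fun x a => a * (1 - f) (t.symm^[n] x)) =
        ∑ n ∈ Finset.range (N j), ((p' j).sum fun x a => a * (1 - f (t.symm^[n] x))) := rfl
    rw [this] at hj2
    linarith
  exact absurd hs2 (not_le.2 (hno j f hf01 hs1))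

end Pool.Agent.Helper78.Lin
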